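import Pool.Agent.KS6_53.Gx.G11

set_option autoImplicit false

open Pool.Agent.KS6_53.Gx

namespace Pool.Agent.Results.MP_714461_an.BanachLattices

universe u v

/-- **Banach lattices without a weak order unit.** Let `X` be a real Banach space which contains a
complemented copy of a Banach lattice `L` without a weak order unit (`J : L → X` the embedding,
`T : X → L` with `T ∘ J = id`; for instance `X = L`). Then for every `ε > 0` there is a
homeomorphism `φ` of `X` onto `X` with `φ - id` Lipschitz with constant `ε` such that `φ` and its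
inverse are Gateaux differentiable at no point; at every point there is a direction along which the
two-sided difference quotients are not even weakly Cauchy. -/
theorem result (X : Type u) (L : Type v) [NormedAddCommGroup X] [NormedSpace ℝ X] [CompleteSpace X]
    [NormedAddCommGroup L] [Lattice L] [IsOrderedAddMonoid L] [HasSolidNorm L]
    [NormedSpace ℝ L] [PosSMulMono ℝ L] (hL : NoWeakUnit L) (T : X →L[ℝ] L) (J : L →L[ℝ] X)
    (hTJ : ∀ z, T (J z) = z) (ε : ℝ) (hε : 0 < ε) :
    ∃ φ : X ≃ₜ X, NearId ε φ ∧ (∀ x, ¬ GateauxAt φ x) ∧ (∀ x, ¬ GateauxAt φ.symm x) ∧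
      (∀ x, ∃ h, ¬ WeakDirDiff φ x h) ∧ ∀ x, ∃ h, ¬ WeakDirDiff φ.symm x h := by
  obtain ⟨φ, h1, h2, h3⟩ := partD hL T J hTJ ε hε
  refine ⟨φ, h1, fun x hx => ?_, fun x hx => ?_, h2, h3⟩
  · obtain ⟨h, hh⟩ := h2 x
    exact hh (hx.dirDiff h).weak
  · obtain ⟨h, hh⟩ := h3 x
    exact hh (hx.dirDiff h).weak

end Pool.Agent.Results.MP_714461_an.BanachLattices
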