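import Pool.Agent.KS6_53.Gx.G11

set_option autoImplicit false

open Pool.Agent.KS6_53.Gx

namespace Pool.Agent.Results.MP_714461_an.ExactDirections

universe u v w

/-- **The exact sets of directions of differentiability.** Let `E` be a complemented subspace of the
real Banach space `X` (`J : E → X` the embedding, `T : X → E` with `T ∘ J = id`) and let `E` have an
unconditional Schauder basis. Then for every `ε > 0` there is a homeomorphism `φ` of `X` onto `X`
with `φ - id` Lipschitz with constant `ε`, such that `φ` and its inverse have at every point `x`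
exactly the same directions `h` of differentiability: if `T h` lies in the closed span of the basis
vectors in the support of `T x` (a separable subspace), then the two-sided derivative exists in
norm, otherwise the one-sided difference quotients are not even weakly Cauchy. If the basis is
uncountable, neither map is Gateaux differentiable anywhere. In particular every nonseparable real
Hilbert space `H` has such a map whose directions of differentiability form a separable closed
subspace at every point. -/
theorem result :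
    (∀ (X : Type u) (E : Type v) (Γ : Type w) [NormedAddCommGroup X] [NormedSpace ℝ X]
      [CompleteSpace X] [NormedAddCommGroup E] [NormedSpace ℝ E]
      (b : UnconditionalSchauderBasis Γ ℝ E) (T : X →L[ℝ] E) (J : E →L[ℝ] X),
      (∀ z, T (J z) = z) → ∀ ε : ℝ, 0 < ε →
      ∃ φ : X ≃ₜ X, NearId ε φ ∧ ∀ ψ : X → X, (ψ = φ ∨ ψ = φ.symm) →
        (Uncountable Γ → ∀ x, ¬ GateauxAt ψ x) ∧
        ∀ x, TopologicalSpace.IsSeparable (suppSpan b (T x) : Set E) ∧
          ∀ h, (T h ∈ suppSpan b (T x) → DirDiff ψ x h) ∧
            (T h ∉ suppSpan b (T x) → ¬ WeakRightDiff ψ x h)) ∧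
    ∀ (H : Type u) [NormedAddCommGroup H] [InnerProductSpace ℝ H] [CompleteSpace H],
      ¬ TopologicalSpace.SeparableSpace H → UniformConvexSpace H ∧ ∀ ε : ℝ, 0 < ε →
      ∃ φ : H ≃ₜ H, NearId ε φ ∧ (∀ x, ¬ GateauxAt φ x) ∧ (∀ x, ¬ GateauxAt φ.symm x) ∧
        ∀ x, ∃ V : Submodule ℝ H, IsClosed (V : Set H) ∧
          TopologicalSpace.IsSeparable (V : Set H) ∧
          ∀ ψ : H → H, (ψ = φ ∨ ψ = φ.symm) → ∀ h,
            (h ∈ V → DirDiff ψ x h) ∧ (h ∉ V → ¬ WeakRightDiff ψ x h) := by
  constructor
  · intro X E Γ _ _ _ _ _ b T J hTJ ε hε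
    obtain ⟨φ, hφ, h⟩ := partB b T J hTJ ε hε
    refine ⟨φ, hφ, fun ψ hψ => ⟨fun hΓ x hx => ?_, fun x => ⟨isSeparable_suppSpan b (T x),
      fun k => h ψ hψ x k⟩⟩⟩
    have h0 : {γ | b.coord γ (T x) ≠ 0}.Countable := by
      refine (b.expansion (T x)).summable.countable_support.mono fun γ hγ => ?_
      rw [Function.mem_support]
      exact smul_ne_zero hγ (b.linearIndependent.ne_zero γ)
    obtain ⟨γ, hγ⟩ : ∃ γ, b.coord γ (T x) = 0 := by
      by_contra hn
      push Not at hn
      have : {γ | b.coord γ (T x) ≠ 0} = Set.univ := Set.eq_univ_of_forall hn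
      rw [this, Set.countable_univ_iff] at h0
      exact not_countable h0
    refine (h ψ hψ x (J (b γ))).2 ?_ (hx.dirDiff _).rightDiff.weak
    rw [hTJ, mem_suppSpan]
    intro hn
    have := hn γ hγ
    rw [coord_same] at this
    exact one_ne_zero this
  · intro H _ _ _ hH
    refine ⟨inferInstance, fun ε hε => ?_⟩
    obtain ⟨w, ⟨b⟩⟩ := exists_basis H
    obtain ⟨φ, hφ, h⟩ := partB b (ContinuousLinearMap.id ℝ H) (ContinuousLinearMap.id ℝ H)
      (fun _ => rfl) ε hε
    have hex : ∀ x, ∃ k, k ∉ suppSpan b x := by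
      intro x
      by_contra hn
      push Not at hn
      apply hH
      rw [← TopologicalSpace.isSeparable_univ_iff]
      exact (isSeparable_suppSpan b x).mono fun k _ => hn k
    refine ⟨φ, hφ, fun x hx => ?_, fun x hx => ?_, fun x => ⟨suppSpan b x,
      Submodule.isClosed_topologicalClosure _, isSeparable_suppSpan b x,
      fun ψ hψ k => h ψ hψ x k⟩⟩
    · obtain ⟨k, hk⟩ := hex x
      exact (h φ (Or.inl rfl) x k).2 hk (hx.dirDiff k).rightDiff.weak
    · obtain ⟨k, hk⟩ := hex x
      exact (h φ.symm (Or.inr rfl) x k).2 hk (hx.dirDiff k).rightDiff.weak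

end Pool.Agent.Results.MP_714461_an.ExactDirections
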