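import Pool.Agent.KS6_53.Gx.G11

set_option autoImplicit false

open Pool.Agent.KS6_53.Gx

namespace Pool.Agent.Results.MP_714461_an.UnconditionalFactor

universe u v w

/-- **Nowhere Gateaux differentiable Lipschitz homeomorphisms.** (1) Let `X` be a real Banach space
on which some bounded operator `J ∘ T` with nonseparable range factors through a normed space `E`
with an unconditional Schauder basis. Then for every `ε > 0` there is a homeomorphism `φ` of `X`
onto `X` with `φ - id` Lipschitz with constant `ε` such that `φ` and its inverse are Gateaux
differentiable at no point; at every point the directions in which even a one-sided derivative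
exists form a closed subspace with nonseparable quotient. (2) Every nonseparable real Hilbert space
is such a space; it is uniformly convex. (3) Nonseparable real Hilbert spaces exist. -/
theorem result :
    (∀ (X : Type u) (E : Type v) (Γ : Type w) [NormedAddCommGroup X] [NormedSpace ℝ X]
      [CompleteSpace X] [NormedAddCommGroup E] [NormedSpace ℝ E]
      (_ : UnconditionalSchauderBasis Γ ℝ E) (T : X →L[ℝ] E) (J : E →L[ℝ] X),
      ¬ TopologicalSpace.IsSeparable (Set.range fun x => J (T x)) → HasWildHomeos X) ∧
    (∀ (H : Type u) [NormedAddCommGroup H] [InnerProductSpace ℝ H] [CompleteSpace H],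
      ¬ TopologicalSpace.SeparableSpace H → UniformConvexSpace H ∧ HasWildHomeos H) ∧
    ∃ (H : Type) (_ : NormedAddCommGroup H) (_ : InnerProductSpace ℝ H) (_ : CompleteSpace H),
      ¬ TopologicalSpace.SeparableSpace H := by
  refine ⟨?_, ?_, exists_nonsep⟩
  · intro X E Γ _ _ _ _ _ b T J hsep
    exact wild_of_factor b T J hsep
  · intro H _ _ _ hH
    exact ⟨inferInstance, wild_hilbert H hH⟩

end Pool.Agent.Results.MP_714461_an.UnconditionalFactor
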